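import Mathlib

/-!
Project KB (helper617), task KB-AS (helper398): degrees of a rational function from its growth at
transcendental points. Auxiliary lemmas.
-/

set_option autoImplicit false

namespace Pool.Agent.W398.KB

open Filter Topology Polynomial

/-- transcendental numbers are unbounded -/
lemma exists_transc (T : ℝ) : ∃ t : ℝ, T < t ∧ Transcendental ℚ t := by
  have h1 : Dense ({x : ℝ | IsAlgebraic ℚ x}ᶜ) :=
    Set.Countable.dense_compl ℝ (Algebraic.countable ℚ ℝ)
  obtain ⟨t, ht, h⟩ := h1.exists_gt T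
  exact ⟨t, h, ht⟩

/-- the filter of large transcendental numbers -/
def TF : Filter ℝ := atTop ⊓ 𝓟 {t : ℝ | Transcendental ℚ t}

instance : NeBot TF := by
  unfold TF
  rw [inf_principal_neBot_iff]
  intro U hU
  obtain ⟨T, hT⟩ := mem_atTop_sets.1 hU
  obtain ⟨t, h1, h2⟩ := exists_transc T
  exact ⟨t, hT t h1.le, h2⟩

lemma TF_le : TF ≤ atTop := inf_le_left

lemma TF_tr : ∀ᶠ t in TF, Transcendental ℚ t := by
  unfold TF
  exact mem_inf_of_right (mem_principal_self _)

/-- the exponent is determined by the growth -/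
lemma expo {F : Filter ℝ} [NeBot F] (hF : F ≤ atTop) (g : ℝ → ℝ) (D M : ℤ) (L a C : ℝ)
    (hL : 0 < L) (ha : 0 < a) (h : Tendsto (fun t => g t / t ^ D) F (𝓝 L))
    (hb : ∀ᶠ t in F, a * t ^ M ≤ g t ∧ g t ≤ C * t ^ M) : M = D := by
  have hpos : ∀ᶠ t : ℝ in F, 0 < t := hF (eventually_gt_atTop 0)
  rcases lt_trichotomy M D with hlt | heq | hgt
  · exfalso
    have h1 : Tendsto (fun t : ℝ => C * t ^ (M - D)) F (𝓝 0) := by
      have := (tendsto_zpow_atTop_zero (𝕜 := ℝ) (n := M - D) (by omega)).mono_left hF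
      simpa using this.const_mul C
    have h2 : L ≤ 0 := by
      refine le_of_tendsto_of_tendsto h h1 ?_
      filter_upwards [hb, hpos] with t ht ht0
      rw [div_le_iff₀ (zpow_pos ht0 _), mul_assoc, ← zpow_add₀ ht0.ne', sub_add_cancel]
      exact ht.2
    linarith
  · exact heq
  · exfalso
    have h1 : Tendsto (fun t : ℝ => a * t ^ (M - D)) F atTop := by
      have h3 : Tendsto (fun t : ℝ => t ^ (M - D)) atTop atTop := by
        obtain ⟨n, hn⟩ := Int.eq_ofNat_of_zero_le (show 0 ≤ M - D by omega)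
        rw [hn]
        simp only [zpow_natCast]
        exact tendsto_pow_atTop (by omega)
      exact (h3.mono_left hF).const_mul_atTop ha
    have h2 : ∀ᶠ t in F, a * t ^ (M - D) ≤ g t / t ^ D := by
      filter_upwards [hb, hpos] with t ht ht0
      rw [le_div_iff₀ (zpow_pos ht0 _), mul_assoc, ← zpow_add₀ ht0.ne', sub_add_cancel]
      exact ht.1
    exact not_tendsto_nhds_of_tendsto_atTop (tendsto_atTop_mono' F h2 h1) L h

/-- behaviour at infinity -/
lemma lead (p : ℚ[X]) : Tendsto (fun t : ℝ => aeval (Complex.I * t) p / (t : ℂ) ^ p.natDegree)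
    atTop (𝓝 ((p.leadingCoeff : ℂ) * Complex.I ^ p.natDegree)) := by
  set d := p.natDegree with hd
  have h1 : (p.leadingCoeff : ℂ) * Complex.I ^ d = ∑ i ∈ Finset.range (d + 1),
      (if i = d then (p.leadingCoeff : ℂ) * Complex.I ^ d else 0) := by
    rw [Finset.sum_ite_eq' (Finset.range (d + 1)) d, if_pos (Finset.mem_range.2 (Nat.lt_succ_self d))]
  have h2 : ∀ t : ℝ, aeval (Complex.I * t) p / (t : ℂ) ^ d =
      ∑ i ∈ Finset.range (d + 1), ((p.coeff i : ℂ) * Complex.I ^ i) * ((t : ℂ) ^ i / (t : ℂ) ^ d) := by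
    intro t
    rw [aeval_eq_sum_range, Finset.sum_div]
    refine Finset.sum_congr rfl fun i _ => ?_
    rw [Algebra.smul_def, mul_pow]
    simp only [eq_ratCast]
    ring
  simp only [h2]
  rw [h1]
  refine tendsto_finsetSum _ fun i hi => ?_
  rw [Finset.mem_range] at hi
  by_cases h : i = d
  · rw [if_pos h, h]
    refine Tendsto.congr' ?_ tendsto_const_nhds
    filter_upwards [eventually_gt_atTop 0] with t ht
    have : (t : ℂ) ^ d ≠ 0 := pow_ne_zero _ (by exact_mod_cast ht.ne')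
    rw [div_self this, mul_one]
    rfl
  · rw [if_neg h]
    have h3 : Tendsto (fun t : ℝ => (t : ℂ) ^ i / (t : ℂ) ^ d) atTop (𝓝 0) := by
      have h4 : Tendsto (fun t : ℝ => t ^ ((i : ℤ) - d)) atTop (𝓝 0) :=
        tendsto_zpow_atTop_zero (by omega)
      have h5 : Tendsto (fun t : ℝ => ((t ^ ((i : ℤ) - d) : ℝ) : ℂ)) atTop (𝓝 ((0 : ℝ) : ℂ)) :=
        (Complex.continuous_ofReal.tendsto 0).comp h4
      rw [Complex.ofReal_zero] at h5
      refine h5.congr' ?_
      filter_upwards [eventually_gt_atTop 0] with t ht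
      rw [zpow_sub₀ ht.ne']
      push_cast
      simp
    simpa using h3.const_mul ((p.coeff i : ℂ) * Complex.I ^ i)

/-- behaviour at zero -/
lemma trail (p : ℚ[X]) :
    Tendsto (fun t : ℝ => aeval (Complex.I * (t⁻¹ : ℝ)) p * (t : ℂ) ^ p.natTrailingDegree)
    atTop (𝓝 ((p.trailingCoeff : ℂ) * Complex.I ^ p.natTrailingDegree)) := by
  set m := p.natTrailingDegree with hm
  have hmd : m ≤ p.natDegree := natTrailingDegree_le_natDegree p
  have h1 : (p.trailingCoeff : ℂ) * Complex.I ^ m = ∑ i ∈ Finset.range (p.natDegree + 1),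
      (if i = m then (p.trailingCoeff : ℂ) * Complex.I ^ m else 0) := by
    rw [Finset.sum_ite_eq' (Finset.range (p.natDegree + 1)) m,
      if_pos (Finset.mem_range.2 (Nat.lt_succ_of_le hmd))]
  have h2 : ∀ t : ℝ, aeval (Complex.I * (t⁻¹ : ℝ)) p * (t : ℂ) ^ m =
      ∑ i ∈ Finset.range (p.natDegree + 1),
        ((p.coeff i : ℂ) * Complex.I ^ i) * ((t : ℂ) ^ m / (t : ℂ) ^ i) := by
    intro t
    rw [aeval_eq_sum_range, Finset.sum_mul]
    refine Finset.sum_congr rfl fun i _ => ?_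
    rw [Algebra.smul_def, mul_pow]
    simp only [eq_ratCast]
    push_cast
    rw [inv_pow]
    ring
  simp only [h2]
  rw [h1]
  refine tendsto_finsetSum _ fun i hi => ?_
  rw [Finset.mem_range] at hi
  rcases lt_trichotomy i m with h | h | h
  · rw [if_neg h.ne]
    have h3 : p.coeff i = 0 := coeff_eq_zero_of_lt_natTrailingDegree h
    rw [h3]
    simp
  · rw [if_pos h, h]
    refine Tendsto.congr' ?_ tendsto_const_nhds
    filter_upwards [eventually_gt_atTop 0] with t ht
    have : (t : ℂ) ^ m ≠ 0 := pow_ne_zero _ (by exact_mod_cast ht.ne')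
    rw [div_self this, mul_one]
    rfl
  · rw [if_neg h.ne']
    have h3 : Tendsto (fun t : ℝ => (t : ℂ) ^ m / (t : ℂ) ^ i) atTop (𝓝 0) := by
      have h4 : Tendsto (fun t : ℝ => t ^ ((m : ℤ) - i)) atTop (𝓝 0) :=
        tendsto_zpow_atTop_zero (by omega)
      have h5 : Tendsto (fun t : ℝ => ((t ^ ((m : ℤ) - i) : ℝ) : ℂ)) atTop (𝓝 ((0 : ℝ) : ℂ)) :=
        (Complex.continuous_ofReal.tendsto 0).comp h4
      rw [Complex.ofReal_zero] at h5
      refine h5.congr' ?_
      filter_upwards [eventually_gt_atTop 0] with t ht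
      rw [zpow_sub₀ ht.ne']
      push_cast
      simp
    simpa using h3.const_mul ((p.coeff i : ℂ) * Complex.I ^ i)

lemma lead_norm (p : ℚ[X]) : Tendsto (fun t : ℝ => ‖aeval (Complex.I * t) p‖ / t ^ (p.natDegree : ℤ))
    atTop (𝓝 (|(p.leadingCoeff : ℝ)|)) := by
  have h := (lead p).norm
  have e : ‖(p.leadingCoeff : ℂ) * Complex.I ^ p.natDegree‖ = |(p.leadingCoeff : ℝ)| := by
    rw [norm_mul, norm_pow, Complex.norm_I, one_pow, mul_one]
    rw [← Complex.ofReal_ratCast, Complex.norm_real, Real.norm_eq_abs]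
  rw [e] at h
  refine h.congr' ?_
  filter_upwards [eventually_gt_atTop 0] with t ht
  rw [norm_div, norm_pow, Complex.norm_real, Real.norm_eq_abs, abs_of_pos ht, zpow_natCast]

lemma trail_norm (p : ℚ[X]) :
    Tendsto (fun t : ℝ => ‖aeval (Complex.I * (t⁻¹ : ℝ)) p‖ / t ^ (-(p.natTrailingDegree : ℤ)))
    atTop (𝓝 (|(p.trailingCoeff : ℝ)|)) := by
  have h := (trail p).norm
  have e : ‖(p.trailingCoeff : ℂ) * Complex.I ^ p.natTrailingDegree‖ = |(p.trailingCoeff : ℝ)| := by
    rw [norm_mul, norm_pow, Complex.norm_I, one_pow, mul_one]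
    rw [← Complex.ofReal_ratCast, Complex.norm_real, Real.norm_eq_abs]
  rw [e] at h
  refine h.congr' ?_
  filter_upwards [eventually_gt_atTop 0] with t ht
  rw [norm_mul, norm_pow, Complex.norm_real, Real.norm_eq_abs, abs_of_pos ht, zpow_neg,
    zpow_natCast, div_inv_eq_mul]

/-- ring homs out of the field of rational functions -/
lemma ev_eq (ev : RatFunc ℚ →+* ℂ) (c : RatFunc ℚ) :
    ev c = aeval (ev RatFunc.X) c.num / aeval (ev RatFunc.X) c.denom := by
  have h1 : ∀ p : ℚ[X], ev (algebraMap ℚ[X] (RatFunc ℚ) p) = aeval (ev RatFunc.X) p := by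
    intro p
    have h2 : (ev.comp (algebraMap ℚ[X] (RatFunc ℚ))) = (aeval (ev RatFunc.X) : ℚ[X] →ₐ[ℚ] ℂ).toRingHom := by
      apply Polynomial.ringHom_ext
      · intro q
        simp
      · simp [RatFunc.algebraMap_X]
    have h3 := congrArg (fun φ : ℚ[X] →+* ℂ => φ p) h2
    simpa using h3
  rw [← h1, ← h1, ← map_div₀, RatFunc.num_div_denom]

end Pool.Agent.W398.KB
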