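import Pool.Agent.W617.KB.Stmts
import Pool.Agent.W398.KB.ASaux

/-!
Project KB (helper617), task KB-AS (helper398): degrees of a rational function from its growth at
transcendental points.
-/

set_option autoImplicit false

namespace Pool.Agent.W398.KB

open Filter Topology Polynomial Pool.Agent.W617.KB

/-- KB-AS -/
theorem main : Pool.Agent.W617.KB.S_AS := by
  intro c f M₁ M₂ hev hG1 hG2
  obtain ⟨a1, C1, T1, ha1, h1⟩ := hG1
  obtain ⟨a2, C2, T2, ha2, h2⟩ := hG2
  have hpos : ∀ᶠ t : ℝ in TF, 0 < t := TF_le (eventually_gt_atTop 0)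
  -- `c` is not zero
  have hc : c ≠ 0 := by
    intro h0
    obtain ⟨t, ht, htr⟩ := exists_transc (max T1 0)
    have ht0 : 0 < t := (le_max_right _ _).trans_lt ht
    have ht1 : T1 ≤ t := (le_max_left _ _).trans ht.le
    obtain ⟨ev, -, h4⟩ := hev t ht0 htr
    rw [h0, map_zero, norm_zero] at h4
    have h5 := (h1 t ht1 ht0).1
    rw [← h4] at h5
    have h6 : 0 < a1 * t ^ M₁ := mul_pos ha1 (zpow_pos ht0 _)
    linarith
  refine ⟨hc, ?_⟩
  have hn : c.num ≠ 0 := RatFunc.num_ne_zero hc
  have hd : c.denom ≠ 0 := RatFunc.denom_ne_zero c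
  have ln : 0 < |(c.num.leadingCoeff : ℝ)| := by
    rw [abs_pos]
    exact_mod_cast leadingCoeff_ne_zero.2 hn
  have ld : 0 < |(c.denom.leadingCoeff : ℝ)| := by
    rw [abs_pos]
    exact_mod_cast leadingCoeff_ne_zero.2 hd
  have tn : 0 < |(c.num.trailingCoeff : ℝ)| := by
    rw [abs_pos]
    have : c.num.trailingCoeff ≠ 0 := by
      rw [Ne, trailingCoeff_eq_zero]
      exact hn
    exact_mod_cast this
  have td : 0 < |(c.denom.trailingCoeff : ℝ)| := by
    rw [abs_pos]
    have : c.denom.trailingCoeff ≠ 0 := by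
      rw [Ne, trailingCoeff_eq_zero]
      exact hd
    exact_mod_cast this
  -- at infinity
  have e1 : M₁ = (c.num.natDegree : ℤ) - c.denom.natDegree := by
    refine expo (F := TF) TF_le
      (fun t => ‖aeval (Complex.I * t) c.num‖ / ‖aeval (Complex.I * t) c.denom‖) _ M₁
      (|(c.num.leadingCoeff : ℝ)| / |(c.denom.leadingCoeff : ℝ)|) a1 C1 (div_pos ln ld) ha1 ?_ ?_
    · refine (((lead_norm c.num).div (lead_norm c.denom) ld.ne').mono_left TF_le).congr' ?_
      filter_upwards [hpos] with t ht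
      rw [Pi.div_apply, zpow_sub₀ ht.ne', div_div_div_comm]
    · filter_upwards [hpos, TF_tr, TF_le (eventually_ge_atTop T1)] with t ht htr ht1
      obtain ⟨ev, h3, h4⟩ := hev t ht htr
      rw [ev_eq, h3, norm_div] at h4
      rw [h4]
      exact h1 t ht1 ht
  -- at zero
  have e2 : M₂ = -(c.num.natTrailingDegree : ℤ) + c.denom.natTrailingDegree := by
    refine expo (F := TF) TF_le
      (fun t => ‖aeval (Complex.I * (t⁻¹ : ℝ)) c.num‖ / ‖aeval (Complex.I * (t⁻¹ : ℝ)) c.denom‖) _ M₂
      (|(c.num.trailingCoeff : ℝ)| / |(c.denom.trailingCoeff : ℝ)|) a2 C2 (div_pos tn td) ha2 ?_ ?_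
    · refine (((trail_norm c.num).div (trail_norm c.denom) td.ne').mono_left TF_le).congr' ?_
      filter_upwards [hpos] with t ht
      have e : -(c.num.natTrailingDegree : ℤ) + c.denom.natTrailingDegree =
          -(c.num.natTrailingDegree : ℤ) - (-(c.denom.natTrailingDegree : ℤ)) := by ring
      rw [Pi.div_apply, e, zpow_sub₀ ht.ne', div_div_div_comm]
    · filter_upwards [hpos, TF_tr, TF_le (eventually_ge_atTop T2)] with t ht htr ht1
      have htr' : Transcendental ℚ t⁻¹ := by
        intro h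
        exact htr (by simpa using h.inv)
      obtain ⟨ev, h3, h4⟩ := hev t⁻¹ (inv_pos.2 ht) htr'
      rw [ev_eq, h3, norm_div] at h4
      rw [h4]
      exact h2 t ht1 ht
  unfold br brP
  rw [e1, e2]
  ring

end Pool.Agent.W398.KB
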