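import Pool.Agent.W398.KB.Sol

/-!
Project KB (helper617), tasks KB-EX1, KB-EX2, KB-EX3 (helper398): the example `D0`.
-/

set_option autoImplicit false

namespace Pool.Agent.W398.KB

open Pool.Agent.H560R3.TG Pool.Agent.W617.KB

/-- KB-EX1 -/
theorem ex1 : S_EX1 := by
  refine ⟨?_, ?_, ?_, ?_, ?_⟩
  · simp [D0, WF]
  · intro E hE hs
    obtain ⟨α₁, α₂, β₁, β₂, t, u, g₁, g₂, h₁, h₂, rfl⟩ := exists_sol hE
    simp only [sol, List.mem_cons, List.not_mem_nil, or_false, forall_eq_or_imp, forall_eq,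
      Loc.Same] at hs
    obtain ⟨-, -, -, -, -, -, ⟨rfl, rfl, -⟩, ⟨rfl, -, rfl⟩, ⟨rfl, -, -⟩, -⟩ := hs
    refine ⟨β₂, ?_⟩
    simp [sol, Slice.src, Slice.tgt, Loc.src, Loc.tgt]
  · refine ⟨_, labelling_sol () false false false false false false () () () (), ?_⟩
    intro s hs b s₁ y s₂ t₁ y' t₂ z h
    simp only [sol, List.mem_cons, List.not_mem_nil, or_false] at hs
    rcases hs with rfl | rfl | rfl | rfl | rfl | rfl | rfl | rfl | rfl | rfl | rfl | rfl | rfl <;>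
      simp at h
    all_goals
      obtain ⟨rfl, rfl, rfl, rfl, rfl⟩ := h
      simp [dir]
  · refine ⟨_, labelling_sol 0 () () () () () () 1 2 4 3, ?_⟩
    simp [sol, holeLabels, cur]
  · intro i hi
    simp only [D0, List.mem_cons, List.not_mem_nil, or_false, reduceCtorEq, false_or,
      Piece.hole.injEq] at hi
    rcases hi with rfl | rfl <;> decide

/-- the decompositions of `D0` at a crossing -/
lemma decomp {u : List Piece} {i : ℕ} {b : Bool} {v : List Piece}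
    (h : D0 = u ++ .cr i b :: v) :
    (u = D0.take 6 ∧ i = 0 ∧ b = true ∧ v = D0.drop 7) ∨
    (u = D0.take 7 ∧ i = 3 ∧ b = false ∧ v = D0.drop 8) ∨
    (u = D0.take 8 ∧ i = 6 ∧ b = true ∧ v = D0.drop 9) := by
  have hlen : u.length < 13 := by
    have := congrArg List.length h
    simp [D0] at this
    omega
  have hu : u = D0.take u.length := by rw [h]; simp
  have hr : D0.drop u.length = .cr i b :: v := by rw [h]; simp
  generalize hn : u.length = n at *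
  interval_cases n <;> simp [D0] at hr
  · left
    obtain ⟨⟨rfl, rfl⟩, rfl⟩ := hr
    exact ⟨hu, rfl, rfl, rfl⟩
  · right; left
    obtain ⟨⟨rfl, rfl⟩, rfl⟩ := hr
    exact ⟨hu, rfl, rfl, rfl⟩
  · right; right
    obtain ⟨⟨rfl, rfl⟩, rfl⟩ := hr
    exact ⟨hu, rfl, rfl, rfl⟩

/-- an external crossing data is a solution -/
lemma split3 {S G : Type} {Eu Ev X : List (Slice S G)} {s : Slice S G} {n : ℕ}
    (h : Eu ++ s :: Ev = X) (hn : Eu.length = n) : Eu = X.take n ∧ s :: Ev = X.drop n := by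
  subst h
  subst hn
  simp

/-- the first crossing -/
lemma cut1 {S G : Type} {a : G} {Eu Ev : List (Slice S G)} {L R : List (S × G)}
    {b : Bool} {s₁ : S} {y : G} {s₂ t₁ : S} {y' : G} {t₂ : S} {z : G} {v : List Piece}
    (h : Labelling a (Eu ++ ⟨L, .cr b s₁ y s₂ t₁ y' t₂ z, R⟩ :: Ev) (D0.take 6 ++ .cr 0 true :: v))
    (hv : v = D0.drop 7) (hu : Eu.map Slice.plain = D0.take 6) :
    ∃ α₁ α₂ β₁ β₂ t u g₁ g₂ h₁ h₂,
      Eu ++ ⟨L, .cr b s₁ y s₂ t₁ y' t₂ z, R⟩ :: Ev = sol a α₁ α₂ β₁ β₂ t u g₁ g₂ h₁ h₂ ∧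
      Eu = (sol a α₁ α₂ β₁ β₂ t u g₁ g₂ h₁ h₂).take 6 ∧
      Ev = (sol a α₁ α₂ β₁ β₂ t u g₁ g₂ h₁ h₂).drop 7 ∧
      L = [] ∧ s₁ = α₁ ∧ y = g₁ ∧ s₂ = α₂ ∧ t₁ = t ∧ y' = g₁ ∧ t₂ = α₂ ∧ z = g₂ := by
  have e : D0.take 6 ++ .cr 0 true :: v = D0 := by rw [hv]; rfl
  rw [e] at h
  obtain ⟨α₁, α₂, β₁, β₂, t, u, g₁, g₂, h₁, h₂, hE⟩ := exists_sol h
  have hlen : Eu.length = 6 := by
    have := congrArg List.length hu
    simpa [D0] using this
  obtain ⟨q1, q2⟩ := split3 hE hlen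
  simp only [sol, List.drop, List.cons.injEq, Slice.mk.injEq, Loc.cr.injEq] at q2
  obtain ⟨⟨rfl, ⟨-, rfl, rfl, rfl, rfl, rfl, rfl, rfl⟩, -⟩, q3⟩ := q2
  exact ⟨_, _, _, _, _, _, _, _, _, _, hE, q1, q3, rfl, rfl, rfl, rfl, rfl, rfl, rfl, rfl⟩

/-- the second crossing -/
lemma cut2 {S G : Type} {a : G} {Eu Ev : List (Slice S G)} {L R : List (S × G)}
    {b : Bool} {s₁ : S} {y : G} {s₂ t₁ : S} {y' : G} {t₂ : S} {z : G} {v : List Piece}
    (h : Labelling a (Eu ++ ⟨L, .cr b s₁ y s₂ t₁ y' t₂ z, R⟩ :: Ev)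
      (D0.take 7 ++ .cr 3 false :: v))
    (hv : v = D0.drop 8) (hu : Eu.map Slice.plain = D0.take 7) :
    ∃ α₁ α₂ β₁ β₂ t u g₁ g₂ h₁ h₂,
      Eu ++ ⟨L, .cr b s₁ y s₂ t₁ y' t₂ z, R⟩ :: Ev = sol a α₁ α₂ β₁ β₂ t u g₁ g₂ h₁ h₂ ∧
      Eu = (sol a α₁ α₂ β₁ β₂ t u g₁ g₂ h₁ h₂).take 7 ∧
      Ev = (sol a α₁ α₂ β₁ β₂ t u g₁ g₂ h₁ h₂).drop 8 ∧
      L = [(t, g₁), (α₂, g₂), (α₂, g₁)] ∧ s₁ = α₁ ∧ y = a ∧ s₂ = β₁ ∧ t₁ = t ∧ y' = a ∧ t₂ = u ∧
      z = h₁ := by
  have e : D0.take 7 ++ .cr 3 false :: v = D0 := by rw [hv]; rfl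
  rw [e] at h
  obtain ⟨α₁, α₂, β₁, β₂, t, u, g₁, g₂, h₁, h₂, hE⟩ := exists_sol h
  have hlen : Eu.length = 7 := by
    have := congrArg List.length hu
    simpa [D0] using this
  obtain ⟨q1, q2⟩ := split3 hE hlen
  simp only [sol, List.drop, List.cons.injEq, Slice.mk.injEq, Loc.cr.injEq] at q2
  obtain ⟨⟨q4, ⟨-, q5, q6, q7, q8, q9, q10, q11⟩, -⟩, q3⟩ := q2
  exact ⟨_, _, _, _, _, _, _, _, _, _, hE, q1, q3, q4, q5, q6, q7, q8, q9, q10, q11⟩

/-- the third crossing -/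
lemma cut3 {S G : Type} {a : G} {Eu Ev : List (Slice S G)} {L R : List (S × G)}
    {b : Bool} {s₁ : S} {y : G} {s₂ t₁ : S} {y' : G} {t₂ : S} {z : G} {v : List Piece}
    (h : Labelling a (Eu ++ ⟨L, .cr b s₁ y s₂ t₁ y' t₂ z, R⟩ :: Ev)
      (D0.take 8 ++ .cr 6 true :: v))
    (hv : v = D0.drop 9) (hu : Eu.map Slice.plain = D0.take 8) :
    ∃ α₁ α₂ β₁ β₂ t u g₁ g₂ h₁ h₂,
      Eu ++ ⟨L, .cr b s₁ y s₂ t₁ y' t₂ z, R⟩ :: Ev = sol a α₁ α₂ β₁ β₂ t u g₁ g₂ h₁ h₂ ∧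
      Eu = (sol a α₁ α₂ β₁ β₂ t u g₁ g₂ h₁ h₂).take 8 ∧
      Ev = (sol a α₁ α₂ β₁ β₂ t u g₁ g₂ h₁ h₂).drop 9 ∧
      L = [(t, g₁), (α₂, g₂), (α₂, g₁), (t, a), (u, h₁), (β₂, h₂)] ∧ s₁ = β₂ ∧ y = h₁ ∧
      s₂ = β₁ ∧ t₁ = β₂ ∧ y' = h₁ ∧ t₂ = u ∧ z = a := by
  have e : D0.take 8 ++ .cr 6 true :: v = D0 := by rw [hv]; rfl
  rw [e] at h
  obtain ⟨α₁, α₂, β₁, β₂, t, u, g₁, g₂, h₁, h₂, hE⟩ := exists_sol h
  have hlen : Eu.length = 8 := by
    have := congrArg List.length hu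
    simpa [D0] using this
  obtain ⟨q1, q2⟩ := split3 hE hlen
  simp only [sol, List.drop, List.cons.injEq, Slice.mk.injEq, Loc.cr.injEq] at q2
  obtain ⟨⟨q4, ⟨-, q5, q6, q7, q8, q9, q10, q11⟩, -⟩, q3⟩ := q2
  exact ⟨_, _, _, _, _, _, _, _, _, _, hE, q1, q3, q4, q5, q6, q7, q8, q9, q10, q11⟩

lemma over_sol (α₁ α₂ β₁ β₂ t u g₁ g₂ h₁ h₂ : Bool) :
    Over (sol true α₁ α₂ β₁ β₂ t u g₁ g₂ h₁ h₂) (sol () α₁ α₂ β₁ β₂ t u () () () ()) :=
  ⟨rfl, rfl⟩

/-- the labels of the gaps do not change at the strands with the label `false` -/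
lemma flat_sol {α₁ α₂ β₁ β₂ t u g₁ g₂ h₁ h₂ : Bool} (c1 : α₁ = false → g₁ = true)
    (c2 : α₂ = false → g₂ = g₁) (c3 : β₁ = false → h₁ = true) (c4 : β₂ = false → h₂ = h₁)
    (c5 : t = false → g₁ = true) (c6 : u = false → h₁ = true) :
    ∀ s ∈ sol true α₁ α₂ β₁ β₂ t u g₁ g₂ h₁ h₂,
      Flat true (s.src true) ∧ Flat true (s.tgt true) := by
  have c1' : α₁ = false → true = g₁ := fun h => (c1 h).symm
  have c2' : α₂ = false → g₁ = g₂ := fun h => (c2 h).symm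
  have c3' : β₁ = false → true = h₁ := fun h => (c3 h).symm
  have c4' : β₂ = false → h₁ = h₂ := fun h => (c4 h).symm
  have c5' : t = false → true = g₁ := fun h => (c5 h).symm
  have c6' : u = false → true = h₁ := fun h => (c6 h).symm
  intro s hs
  simp only [sol, List.mem_cons, List.not_mem_nil, or_false] at hs
  rcases hs with rfl | rfl | rfl | rfl | rfl | rfl | rfl | rfl | rfl | rfl | rfl | rfl | rfl <;>
    simp only [Slice.src, Slice.tgt, Loc.src, Loc.tgt, cur, List.nil_append, List.cons_append,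
      List.append_nil, Flat, and_true] <;>
    refine ⟨?_, ?_⟩ <;> trivial

lemma holes_sol {S : Type} (α₁ α₂ β₁ β₂ t u : S) (g₁ g₂ h₁ h₂ : Bool) :
    holeLabels true (sol true α₁ α₂ β₁ β₂ t u g₁ g₂ h₁ h₂) = [g₂, h₂] := rfl

lemma case1 : ∀ α₁ α₂ β₁ β₂ t u : Bool, (α₁ = β₁ ∧ α₁ = t ∧ α₁ = u) →
    (β₂ = β₁ ∧ β₂ = β₂ ∧ β₂ = u) →
    ((α₁ = α₂ ∧ t = α₂ ∧ α₁ ≠ t) ∨ (α₁ = t ∧ α₂ = α₂ ∧ α₁ ≠ α₂)) →
    (α₁ = false ∧ α₂ = true ∧ β₁ = false ∧ β₂ = false ∧ t = false ∧ u = false) ∨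
    (α₁ = true ∧ α₂ = false ∧ β₁ = true ∧ β₂ = true ∧ t = true ∧ u = true) := by
  intro α₁ α₂ β₁ β₂ t u
  cases α₁ <;> cases α₂ <;> cases β₁ <;> cases β₂ <;> cases t <;> cases u <;> simp

lemma case2 : ∀ α₁ α₂ β₁ β₂ t u : Bool, (α₁ = α₂ ∧ α₁ = t ∧ α₁ = α₂) →
    (β₂ = β₁ ∧ β₂ = β₂ ∧ β₂ = u) →
    ((α₁ = β₁ ∧ t = u ∧ α₁ ≠ t) ∨ (α₁ = t ∧ β₁ = u ∧ α₁ ≠ β₁)) →
    (α₁ = true ∧ α₂ = true ∧ β₁ = false ∧ β₂ = false ∧ t = true ∧ u = false) ∨
    (α₁ = false ∧ α₂ = false ∧ β₁ = true ∧ β₂ = true ∧ t = false ∧ u = true) := by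
  intro α₁ α₂ β₁ β₂ t u
  cases α₁ <;> cases α₂ <;> cases β₁ <;> cases β₂ <;> cases t <;> cases u <;> simp

lemma case3 : ∀ α₁ α₂ β₁ β₂ t u : Bool, (α₁ = α₂ ∧ α₁ = t ∧ α₁ = α₂) →
    (α₁ = β₁ ∧ α₁ = t ∧ α₁ = u) →
    ((β₂ = β₁ ∧ β₂ = u ∧ β₂ ≠ β₂) ∨ (β₂ = β₂ ∧ β₁ = u ∧ β₂ ≠ β₁)) →
    (α₁ = false ∧ α₂ = false ∧ β₁ = false ∧ β₂ = true ∧ t = false ∧ u = false) ∨
    (α₁ = true ∧ α₂ = true ∧ β₁ = true ∧ β₂ = false ∧ t = true ∧ u = true) := by
  intro α₁ α₂ β₁ β₂ t u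
  cases α₁ <;> cases α₂ <;> cases β₁ <;> cases β₂ <;> cases t <;> cases u <;> simp

/-- KB-EX2 -/
theorem ex2 : S_EX2 := by
  intro u i b v hD hex
  obtain ⟨Eu, Ev, L, R, s₁, s₂, t₁, t₂, hlab, hu, hsame, hor, hall⟩ := hex
  -- the labelling with a hole which is not in the outer region
  have fin : ∀ α₁ α₂ β₁ β₂ t u' g₁ g₂ h₁ h₂ : Bool,
      Eu ++ ⟨L, .cr b s₁ () s₂ t₁ () t₂ (), R⟩ :: Ev = sol () α₁ α₂ β₁ β₂ t u' () () () () →
      (α₁ = false → g₁ = true) → (α₂ = false → g₂ = g₁) → (β₁ = false → h₁ = true) →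
      (β₂ = false → h₂ = h₁) → (t = false → g₁ = true) → (u' = false → h₁ = true) →
      (g₂ = false ∨ h₂ = false) → False := by
    intro α₁ α₂ β₁ β₂ t u' g₁ g₂ h₁ h₂ hE c1 c2 c3 c4 c5 c6 hg
    rw [← hD, hE] at hall
    have h := (hall _ (labelling_sol true α₁ α₂ β₁ β₂ t u' g₁ g₂ h₁ h₂)
      (over_sol _ _ _ _ _ _ _ _ _ _) (flat_sol c1 c2 c3 c4 c5 c6)).1
    rw [holes_sol] at h
    rcases hg with hg | hg
    · have := h g₂ (by simp)
      rw [hg] at this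
      exact Bool.false_ne_true this
    · have := h h₂ (by simp)
      rw [hg] at this
      exact Bool.false_ne_true this
  rcases decomp hD with ⟨rfl, rfl, rfl, rfl⟩ | ⟨rfl, rfl, rfl, rfl⟩ | ⟨rfl, rfl, rfl, rfl⟩
  · obtain ⟨α₁, α₂, β₁, β₂, t, u', g₁, g₂, h₁, h₂, hE, hEu, hEv, -, q1, -, q2, q3, -, q4, -⟩ :=
      cut1 hlab rfl hu
    rw [hEu, hEv] at hsame
    simp only [sol, List.take, List.drop, List.cons_append, List.nil_append, List.mem_cons,
      List.not_mem_nil, or_false, forall_eq_or_imp, forall_eq, Loc.Same] at hsame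
    rw [q1, q2, q3, q4] at hor
    rcases case1 α₁ α₂ β₁ β₂ t u' (by tauto) (by tauto) hor with h | h
    · obtain ⟨rfl, rfl, rfl, rfl, rfl, rfl⟩ := h
      exact fin _ _ _ _ _ _ true false true true hE (by simp) (by simp) (by simp) (by simp)
        (by simp) (by simp) (Or.inl rfl)
    · obtain ⟨rfl, rfl, rfl, rfl, rfl, rfl⟩ := h
      exact fin _ _ _ _ _ _ false false true true hE (by simp) (by simp) (by simp) (by simp)
        (by simp) (by simp) (Or.inl rfl)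
  · obtain ⟨α₁, α₂, β₁, β₂, t, u', g₁, g₂, h₁, h₂, hE, hEu, hEv, -, q1, -, q2, q3, -, q4, -⟩ :=
      cut2 hlab rfl hu
    rw [hEu, hEv] at hsame
    simp only [sol, List.take, List.drop, List.cons_append, List.nil_append, List.mem_cons,
      List.not_mem_nil, or_false, forall_eq_or_imp, forall_eq, Loc.Same] at hsame
    rw [q1, q2, q3, q4] at hor
    rcases case2 α₁ α₂ β₁ β₂ t u' (by tauto) (by tauto) hor with h | h
    · obtain ⟨rfl, rfl, rfl, rfl, rfl, rfl⟩ := h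
      exact fin _ _ _ _ _ _ true false true true hE (by simp) (by simp) (by simp) (by simp)
        (by simp) (by simp) (Or.inl rfl)
    · obtain ⟨rfl, rfl, rfl, rfl, rfl, rfl⟩ := h
      exact fin _ _ _ _ _ _ true true true false hE (by simp) (by simp) (by simp) (by simp)
        (by simp) (by simp) (Or.inr rfl)
  · obtain ⟨α₁, α₂, β₁, β₂, t, u', g₁, g₂, h₁, h₂, hE, hEu, hEv, -, q1, -, q2, q3, -, q4, -⟩ :=
      cut3 hlab rfl hu
    rw [hEu, hEv] at hsame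
    simp only [sol, List.take, List.drop, List.cons_append, List.nil_append, List.mem_cons,
      List.not_mem_nil, or_false, forall_eq_or_imp, forall_eq, Loc.Same] at hsame
    rw [q1, q2, q3, q4] at hor
    rcases case3 α₁ α₂ β₁ β₂ t u' (by tauto) (by tauto) hor with h | h
    · obtain ⟨rfl, rfl, rfl, rfl, rfl, rfl⟩ := h
      exact fin _ _ _ _ _ _ true true true false hE (by simp) (by simp) (by simp) (by simp)
        (by simp) (by simp) (Or.inr rfl)
    · obtain ⟨rfl, rfl, rfl, rfl, rfl, rfl⟩ := h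
      exact fin _ _ _ _ _ _ true true false false hE (by simp) (by simp) (by simp) (by simp)
        (by simp) (by simp) (Or.inr rfl)

/-! ### KB-EX3 -/

lemma ext1_0 : External (D0.take 6) 0 true (D0.drop 7) 0 := by
  intro Eu Ev L R y y' z hlab hu _
  obtain ⟨α₁, α₂, β₁, β₂, t, u', g₁, g₂, h₁, h₂, hE, -, -, q0, -, -, -, -, -, -, -⟩ :=
    cut1 hlab rfl hu
  rw [q0]
  rfl

lemma ext1_2 : External (D0.take 6) 0 true (D0.drop 7) 2 := by
  intro Eu Ev L R y y' z hlab hu hh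
  obtain ⟨α₁, α₂, β₁, β₂, t, u', g₁, g₂, h₁, h₂, hE, -, -, -, -, -, -, -, -, -, q⟩ :=
    cut1 hlab rfl hu
  rw [hE, holes_sol] at hh
  rw [q]
  exact hh g₂ (by simp)

lemma not_same1 : ¬ SameRegion (D0.take 6) 0 true (D0.drop 7) 0 2 := by
  intro h
  have := h true ((sol true () () () () () () true false true true).take 6)
    ((sol true () () () () () () true false true true).drop 7) []
    [((), true), ((), true), ((), true), ((), true), ((), true), ((), true)] true true false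
    (labelling_sol true () () () () () () true false true true) rfl
  simp [corner, cur] at this

lemma ext3_0 : External (D0.take 8) 6 true (D0.drop 9) 0 := by
  intro Eu Ev L R y y' z hlab hu hh
  obtain ⟨α₁, α₂, β₁, β₂, t, u', g₁, g₂, h₁, h₂, hE, -, -, q0, -, -, -, -, -, -, q⟩ :=
    cut3 hlab rfl hu
  rw [hE, holes_sol] at hh
  rw [q0]
  exact hh h₂ (by simp)

lemma ext3_2 : External (D0.take 8) 6 true (D0.drop 9) 2 := by
  intro Eu Ev L R y y' z hlab hu hh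
  obtain ⟨α₁, α₂, β₁, β₂, t, u', g₁, g₂, h₁, h₂, hE, -, -, -, -, -, -, -, -, -, q⟩ :=
    cut3 hlab rfl hu
  rw [q]
  rfl

lemma not_same3 : ¬ SameRegion (D0.take 8) 6 true (D0.drop 9) 0 2 := by
  intro h
  have := h true ((sol true () () () () () () true true true false).take 8)
    ((sol true () () () () () () true true true false).drop 9)
    [((), true), ((), true), ((), true), ((), true), ((), true), ((), false)] [] true true true
    (labelling_sol true () () () () () () true true true false) rfl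
  simp [corner, cur] at this

lemma ext2_1 : External (D0.take 7) 3 false (D0.drop 8) 1 := by
  intro Eu Ev L R y y' z hlab hu hh
  obtain ⟨α₁, α₂, β₁, β₂, t, u', g₁, g₂, h₁, h₂, hE, -, -, q0, -, q1, -, -, q2, -, q⟩ :=
    cut2 hlab rfl hu
  rw [q1]
  rfl

lemma ext2_3 : External (D0.take 7) 3 false (D0.drop 8) 3 := by
  intro Eu Ev L R y y' z hlab hu hh
  obtain ⟨α₁, α₂, β₁, β₂, t, u', g₁, g₂, h₁, h₂, hE, -, -, q0, -, q1, -, -, q2, -, q⟩ :=
    cut2 hlab rfl hu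
  rw [q2]
  rfl

lemma not_ext2_0 : ¬ External (D0.take 7) 3 false (D0.drop 8) 0 := by
  intro h
  have := h ((sol true () () () () () () false true true true).take 7)
    ((sol true () () () () () () false true true true).drop 8)
    [((), false), ((), true), ((), false)] [((), true), ((), true), ((), true)] true true true
    (labelling_sol true () () () () () () false true true true) rfl
    (by
      intro x hx
      change x ∈ [true, true] at hx
      simpa using hx)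
  simp [corner, cur] at this

lemma not_ext2_2 : ¬ External (D0.take 7) 3 false (D0.drop 8) 2 := by
  intro h
  have := h ((sol true () () () () () () true true false true).take 7)
    ((sol true () () () () () () true true false true).drop 8)
    [((), true), ((), true), ((), true)] [((), true), ((), false), ((), true)] true true false
    (labelling_sol true () () () () () () true true false true) rfl
    (by
      intro x hx
      change x ∈ [true, true] at hx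
      simpa using hx)
  simp [corner] at this

lemma same2 (k k' : Fin 4) (hk : k = 1 ∨ k = 3) (hk' : k' = 1 ∨ k' = 3) :
    SameRegion (D0.take 7) 3 false (D0.drop 8) k k' := by
  intro a Eu Ev L R y y' z hlab hu
  obtain ⟨α₁, α₂, β₁, β₂, t, u', g₁, g₂, h₁, h₂, hE, -, -, q0, -, q1, -, -, q2, -, q⟩ :=
    cut2 hlab rfl hu
  rw [q1, q2]
  rcases hk with rfl | rfl <;> rcases hk' with rfl | rfl <;> rfl

lemma ext2_iff (k : Fin 4) (h : External (D0.take 7) 3 false (D0.drop 8) k) : k = 1 ∨ k = 3 := by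
  fin_cases k
  · exact absurd h not_ext2_0
  · left; rfl
  · exact absurd h not_ext2_2
  · right; rfl

/-- KB-EX3 -/
theorem ex3 : S_EX3 := by
  have l6 : (D0.take 6).length = 6 := rfl
  have l7 : (D0.take 7).length = 7 := rfl
  have l8 : (D0.take 8).length = 8 := rfl
  have n67 : D0.take 6 ≠ D0.take 7 := fun h => by
    have := congrArg List.length h
    rw [l6, l7] at this
    omega
  have n68 : D0.take 6 ≠ D0.take 8 := fun h => by
    have := congrArg List.length h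
    rw [l6, l8] at this
    omega
  have n78 : D0.take 7 ≠ D0.take 8 := fun h => by
    have := congrArg List.length h
    rw [l7, l8] at this
    omega
  constructor
  · unfold count
    have : {u : List Piece | ∃ i b v, D0 = u ++ .cr i b :: v ∧ TwoExternal u i b v} =
        {D0.take 6, D0.take 8} := by
      ext u
      simp only [Set.mem_ofPred_eq, Set.mem_insert_iff, Set.mem_singleton_iff]
      constructor
      · rintro ⟨i, b, v, hD, hP⟩
        rcases decomp hD with ⟨rfl, rfl, rfl, rfl⟩ | ⟨rfl, rfl, rfl, rfl⟩ | ⟨rfl, rfl, rfl, rfl⟩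
        · left; rfl
        · exfalso
          obtain ⟨k, k', h1, h2, h3⟩ := hP
          exact h3 (same2 k k' (ext2_iff k h1) (ext2_iff k' h2))
        · right; rfl
      · rintro (rfl | rfl)
        · exact ⟨0, true, D0.drop 7, rfl, 0, 2, ext1_0, ext1_2, not_same1⟩
        · exact ⟨6, true, D0.drop 9, rfl, 0, 2, ext3_0, ext3_2, not_same3⟩
    rw [this, Set.ncard_pair n68]
  · unfold count
    have : {u : List Piece | ∃ i b v, D0 = u ++ .cr i b :: v ∧ ExternalTwice u i b v} =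
        {D0.take 6, D0.take 7, D0.take 8} := by
      ext u
      simp only [Set.mem_ofPred_eq, Set.mem_insert_iff, Set.mem_singleton_iff]
      constructor
      · rintro ⟨i, b, v, hD, hP⟩
        rcases decomp hD with ⟨rfl, rfl, rfl, rfl⟩ | ⟨rfl, rfl, rfl, rfl⟩ | ⟨rfl, rfl, rfl, rfl⟩
        · left; rfl
        · right; left; rfl
        · right; right; rfl
      · rintro (rfl | rfl | rfl)
        · exact ⟨0, true, D0.drop 7, rfl, 0, 2, by decide, ext1_0, ext1_2⟩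
        · exact ⟨3, false, D0.drop 8, rfl, 1, 3, by decide, ext2_1, ext2_3⟩
        · exact ⟨6, true, D0.drop 9, rfl, 0, 2, by decide, ext3_0, ext3_2⟩
    rw [this, Set.ncard_insert_of_notMem, Set.ncard_pair n78]
    simp only [Set.mem_insert_iff, Set.mem_singleton_iff, not_or]
    exact ⟨n67, n68⟩

end Pool.Agent.W398.KB
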