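import Pool.Agent.W617.KB.Stmts

/-!
Project KB (helper617), task KB-HP (helper398): every link diagram is a multiple of the empty
diagram in the skein module of `#_g (S¹ × S²)`.
-/

set_option autoImplicit false

namespace Pool.Agent.W398.KB

open Pool.Agent.H560R3.TG Pool.Agent.W617.KB

/-- the skein module -/
abbrev Q : Type := (List Piece →₀ K) ⧸ Rels

/-- the class of a diagram -/
noncomputable def q (D : List Piece) : Q := Submodule.Quotient.mk (cls D)

/-- the multiples of the empty diagram -/
noncomputable def N (g : ℕ) : Submodule K Q := Submodule.span K {q (empty g)}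

lemma isBracket_of {D : List Piece} (h : q D ∈ N (holes D)) : ∃ c : K, IsBracket D c := by
  unfold N at h
  rw [Submodule.mem_span_singleton] at h
  obtain ⟨c, hc⟩ := h
  refine ⟨c, ?_⟩
  unfold IsBracket
  unfold q at hc
  rw [← Submodule.Quotient.mk_smul, Submodule.Quotient.eq] at hc
  have := Rels.neg_mem hc
  rwa [neg_sub] at this

/-! ### counting -/

lemma holes_app (u v : List Piece) : holes (u ++ v) = holes u + holes v := by
  induction u with
  | nil => simp [holes]
  | cons p u ih => cases p <;> simp only [List.cons_append, holes, ih] <;> omega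

lemma crossings_app (u v : List Piece) : crossings (u ++ v) = crossings u + crossings v := by
  induction u with
  | nil => simp [crossings]
  | cons p u ih => cases p <;> simp only [List.cons_append, crossings, ih] <;> omega

/-- the sum over the holes of the number of strands on the right -/
def rr : ℕ → List Piece → ℕ
  | _, [] => 0
  | n, .birth _ :: w => rr (n + 2) w
  | n, .death _ :: w => rr (n - 2) w
  | n, .cr _ _ :: w => rr n w
  | n, .hole i :: w => (n - i) + rr n w

lemma rr_app {n k : ℕ} {u : List Piece} (h : WF n u k) (v : List Piece) :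
    rr n (u ++ v) = rr n u + rr k v := by
  induction u generalizing n with
  | nil =>
    have : n = k := h
    subst this
    simp [rr]
  | cons p u ih =>
    cases p with
    | birth i => exact ih h.2
    | death i => exact ih h.2
    | cr i b => exact ih h.2
    | hole i =>
      simp only [List.cons_append, rr]
      rw [ih h.2]
      omega

/-! ### relations -/

lemma q_move {n m : ℕ} {u l r v : List Piece} (hm : RMove n l r) (hu : WF 0 u n) (hl : WF n l m)
    (hr : WF n r m) (hv : WF m v 0) : q (u ++ (l ++ v)) = q (u ++ (r ++ v)) := by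
  unfold q
  rw [Submodule.Quotient.eq]
  have h := SkeinRel.isotopy n m u l r v hu hm hl hr hv
  rw [← List.append_assoc, ← List.append_assoc]
  exact Submodule.subset_span h

lemma q_kauffman {i : ℕ} {b : Bool} {u v : List Piece} (h : WF 0 (u ++ .cr i b :: v) 0) :
    q (u ++ .cr i b :: v) = Ab b • q (u ++ v) + (Ab b)⁻¹ • q (u ++ .death i :: .birth i :: v) := by
  unfold q
  rw [← Submodule.Quotient.mk_smul, ← Submodule.Quotient.mk_smul, ← Submodule.Quotient.mk_add,
    Submodule.Quotient.eq]
  exact Submodule.subset_span (SkeinRel.kauffman i b u v h)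

lemma q_circle {i : ℕ} {u v : List Piece} (h : WF 0 (u ++ .birth i :: .death i :: v) 0) :
    q (u ++ .birth i :: .death i :: v) =
      (-(RatFunc.X) ^ 2 - ((RatFunc.X)⁻¹) ^ 2 : K) • q (u ++ v) := by
  unfold q
  rw [← Submodule.Quotient.mk_smul, Submodule.Quotient.eq]
  exact Submodule.subset_span (SkeinRel.circle i u v h)

lemma q_slide {i k : ℕ} {b : Bool} {u v : List Piece} (hu : WF 0 u (i + 1 + k))
    (hv : WF (i + 1 + k) v 0) :
    q (u ++ .hole i :: v) = (Ab b) ^ 6 • q (u ++ (goRight b i k ++ (.hole i :: (goLeft b i k ++ v)))) := by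
  unfold q
  rw [← Submodule.Quotient.mk_smul, Submodule.Quotient.eq]
  have h := SkeinRel.slide i k b u v hu hv
  have e1 : u ++ [.hole i] ++ v = u ++ .hole i :: v := by simp
  have e2 : u ++ (goRight b i k ++ [.hole i] ++ goLeft b i k) ++ v =
      u ++ (goRight b i k ++ (.hole i :: (goLeft b i k ++ v))) := by simp
  rw [e1, e2] at h
  exact Submodule.subset_span h

/-! ### steps 3 and 4: no crossings, all holes at the far right -/

lemma no_death {n m : ℕ} {D : List Piece} (h : WF n D m) (hc : crossings D = 0)
    (hd : ∀ j, Piece.death j ∉ D) : n ≤ m ∧ (m = 0 → D = empty (holes D)) := by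
  induction D generalizing n with
  | nil =>
    have : n = m := h
    exact ⟨this.le, fun _ => by simp [empty, holes]⟩
  | cons p D ih =>
    have hd' : ∀ j, Piece.death j ∉ D := fun j hj => hd j (List.mem_cons_of_mem _ hj)
    cases p with
    | birth i =>
      obtain ⟨h1, h2⟩ := h
      have := (ih h2 hc hd').1
      exact ⟨by omega, fun h0 => by omega⟩
    | death i => exact absurd List.mem_cons_self (hd i)
    | cr i b => simp [crossings] at hc
    | hole i =>
      obtain ⟨h1, h2⟩ := h
      obtain ⟨h3, h4⟩ := ih h2 hc hd'
      refine ⟨h3, fun h0 => ?_⟩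
      have hi : i = 0 := by omega
      subst hi
      have := h4 h0
      simp only [holes, empty, List.replicate_succ, List.cons.injEq, true_and]
      exact this

lemma exists_first_death {D : List Piece} (h : ∃ j, Piece.death j ∈ D) :
    ∃ u j v, D = u ++ .death j :: v ∧ ∀ i, Piece.death i ∉ u := by
  induction D with
  | nil => obtain ⟨j, hj⟩ := h; simp at hj
  | cons p D ih =>
    by_cases hp : ∃ j, p = .death j
    · obtain ⟨j, rfl⟩ := hp
      exact ⟨[], j, D, rfl, by simp⟩
    · have h' : ∃ j, Piece.death j ∈ D := by
        obtain ⟨j, hj⟩ := h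
        rcases List.mem_cons.1 hj with h1 | h1
        · exact absurd ⟨j, h1.symm⟩ hp
        · exact ⟨j, h1⟩
      obtain ⟨u, j, v, rfl, hu⟩ := ih h'
      refine ⟨p :: u, j, v, rfl, fun i hi => ?_⟩
      rcases List.mem_cons.1 hi with h1 | h1
      · exact hp ⟨i, h1.symm⟩
      · exact hu i h1

lemma base (n : ℕ) : ∀ D : List Piece, D.length ≤ n → WF 0 D 0 → crossings D = 0 → rr 0 D = 0 →
    q D ∈ N (holes D) := by
  induction n with
  | zero =>
    intro D hl h hc hr
    have : D = [] := List.length_eq_zero_iff.1 (by omega)
    subst this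
    exact Submodule.subset_span (by simp [empty, holes])
  | succ n ih =>
    intro D hl h hc hr
    by_cases hd : ∃ j, Piece.death j ∈ D
    swap
    · have := (no_death h hc (fun j hj => hd ⟨j, hj⟩)).2 rfl
      rw [this]
      have e : holes (empty (holes D)) = holes D := by rw [← this]
      rw [e]
      exact Submodule.subset_span rfl
    obtain ⟨u, j, v, rfl, hu⟩ := exists_first_death hd
    clear hd
    -- move the first death to the left
    obtain ⟨m, hm⟩ : ∃ m, u.length = m := ⟨_, rfl⟩
    induction m generalizing u j v with
    | zero =>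
      have : u = [] := List.length_eq_zero_iff.1 hm
      subst this
      exfalso
      have := h.1
      omega
    | succ m ihm =>
      obtain ⟨u', p, rfl⟩ : ∃ u' p, u = u' ++ [p] := by
        have hne : u ≠ [] := by
          rintro rfl
          simp at hm
        exact ⟨u.dropLast, u.getLast hne, (List.dropLast_append_getLast hne).symm⟩
      have hm' : u'.length = m := by simpa using hm
      have hu' : ∀ i, Piece.death i ∉ u' := fun i hi => hu i (List.mem_append_left _ hi)
      have hp : ∀ i, p ≠ .death i := fun i hi => hu i (by rw [hi]; simp)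
      rw [List.append_assoc, List.singleton_append] at h hc hr hl ⊢
      obtain ⟨l, h1, h2⟩ := (WF_append u' _ 0 0).1 h
      rw [crossings_app] at hc
      have hc1 : crossings u' = 0 := by omega
      rw [rr_app h1] at hr
      have hr1 : rr 0 u' = 0 := by omega
      cases p with
      | death i => exact absurd rfl (hp i)
      | cr i b => simp [crossings] at hc
      | hole i =>
        obtain ⟨h3, h4, h5⟩ := h2
        simp only [rr] at hr
        have hi : i = l := by omega
        subst hi
        have mv : RMove i [.death j, .hole (i - 2)] [.hole i, .death j] := by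
          have := RMove.far i (.death j) (.hole i) (by simp [Piece.isHole])
            (by simpa [Piece.pos, Piece.src] using h4) (by simp [Piece.pos, Piece.src])
          simpa [Piece.put, Piece.pos, Piece.src, Piece.tgt] using this
        have e := q_move (v := v) mv h1 (m := i - 2) ⟨h4, le_rfl, rfl⟩ ⟨le_rfl, h4, rfl⟩ h5
        change q (u' ++ .death j :: .hole (i - 2) :: v) = q (u' ++ .hole i :: .death j :: v) at e
        rw [← e]
        have eh : holes (u' ++ .hole i :: .death j :: v) =
            holes (u' ++ .death j :: .hole (i - 2) :: v) := by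
          rw [holes_app, holes_app]; simp [holes]
        rw [eh]
        refine ihm u' j (.hole (i - 2) :: v) hu' (by simpa using hl) ?_ ?_ ?_ hm'
        · exact (WF_append u' _ 0 0).2 ⟨i, h1, h4, le_rfl, h5⟩
        · rw [crossings_app]
          simp only [crossings] at hc ⊢
          exact hc
        · rw [rr_app h1]
          simp only [rr] at hr ⊢
          omega
      | birth i =>
        obtain ⟨h3, h4, h5⟩ := h2
        have h4' : j ≤ l := by omega
        have h5' : WF l v 0 := by
          have e : l + 2 - 2 = l := by omega
          rw [e] at h5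
          exact h5
        simp only [rr] at hr
        have hr5 : rr l v = 0 := by
          have e : l + 2 - 2 = l := by omega
          rw [e] at hr
          omega
        have hc5 : crossings v = 0 := by
          simp only [crossings] at hc
          omega
        have eh : holes (u' ++ .birth i :: .death j :: v) = holes (u' ++ v) := by
          rw [holes_app, holes_app]; simp [holes]
        have small : q (u' ++ v) ∈ N (holes (u' ++ v)) := by
          refine ih (u' ++ v) ?_ ((WF_append u' _ 0 0).2 ⟨l, h1, h5'⟩) ?_ ?_
          · simp only [List.length_append, List.length_cons] at hl ⊢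
            omega
          · rw [crossings_app]; omega
          · rw [rr_app h1]; omega
        rw [eh]
        rcases lt_trichotomy i j with hij | hij | hij
        · by_cases hij1 : j = i + 1
          · subst hij1
            have e := q_move (v := v) (RMove.zig1 l i (by omega)) h1 (m := l)
              ⟨by omega, by omega, by simp [WF]⟩ rfl h5'
            change q (u' ++ .birth i :: .death (i + 1) :: v) = q (u' ++ v) at e
            rw [e]
            exact small
          · have mv : RMove l [.birth i, .death j] [.death (j - 2), .birth i] := by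
              have := RMove.far l (.birth i) (.death (j - 2)) (by simp [Piece.isHole])
                (by simp only [Piece.pos, Piece.src]; omega)
                (by simp only [Piece.pos, Piece.src]; omega)
              have e2 : j - 2 + 2 = j := by omega
              simpa [Piece.put, Piece.pos, Piece.src, Piece.tgt, e2] using this
            have e := q_move (v := v) mv h1 (m := l) ⟨by omega, by omega, by simp [WF]⟩
              ⟨by omega, by omega, by simp only [WF]; omega⟩ h5'
            change q (u' ++ .birth i :: .death j :: v) =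
              q (u' ++ .death (j - 2) :: .birth i :: v) at e
            rw [e]
            have eh2 : holes (u' ++ v) = holes (u' ++ .death (j - 2) :: .birth i :: v) := by
              rw [holes_app, holes_app]; simp [holes]
            rw [eh2]
            have e4 : l - 2 + 2 = l := by omega
            refine ihm u' (j - 2) (.birth i :: v) hu' (by simpa using hl) ?_ ?_ ?_ hm'
            · refine (WF_append u' _ 0 0).2 ⟨l, h1, by omega, by omega, ?_⟩
              rw [e4]
              exact h5'
            · rw [crossings_app]; simp only [crossings]; omega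
            · rw [rr_app h1]; simp only [rr]; rw [e4]; omega
        · subst hij
          have e := q_circle (u := u') (v := v) (i := i) h
          rw [e]
          exact Submodule.smul_mem _ _ small
        · by_cases hij1 : i = j + 1
          · subst hij1
            have e := q_move (v := v) (RMove.zig2 l j (by omega)) h1 (m := l)
              ⟨by omega, by omega, by simp [WF]⟩ rfl h5'
            change q (u' ++ .birth (j + 1) :: .death j :: v) = q (u' ++ v) at e
            rw [e]
            exact small
          · have mv : RMove l [.death j, .birth (i - 2)] [.birth i, .death j] := by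
              have := RMove.far l (.death j) (.birth i) (by simp [Piece.isHole])
                (by simp only [Piece.pos, Piece.src]; omega)
                (by simp only [Piece.pos, Piece.src]; omega)
              simpa [Piece.put, Piece.pos, Piece.src, Piece.tgt] using this
            have e := q_move (v := v) mv h1 (m := l) ⟨by omega, by omega, by simp only [WF]; omega⟩
              ⟨by omega, by omega, by simp [WF]⟩ h5'
            change q (u' ++ .death j :: .birth (i - 2) :: v) =
              q (u' ++ .birth i :: .death j :: v) at e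
            rw [← e]
            have eh2 : holes (u' ++ v) = holes (u' ++ .death j :: .birth (i - 2) :: v) := by
              rw [holes_app, holes_app]; simp [holes]
            rw [eh2]
            have e4 : l - 2 + 2 = l := by omega
            refine ihm u' j (.birth (i - 2) :: v) hu' (by simpa using hl) ?_ ?_ ?_ hm'
            · refine (WF_append u' _ 0 0).2 ⟨l, h1, by omega, by omega, ?_⟩
              rw [e4]
              exact h5'
            · rw [crossings_app]; simp only [crossings]; omega
            · rw [rr_app h1]; simp only [rr]; rw [e4]; omega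

/-! ### step 2: no crossings -/

/-- words in the elements `death j, birth j` with `i ≤ j`, `j + 2 ≤ n` -/
inductive TL (i n : ℕ) : List Piece → Prop
  | nil : TL i n []
  | cons (j : ℕ) (w : List Piece) (h1 : i ≤ j) (h2 : j + 2 ≤ n) (hw : TL i n w) :
      TL i n (.death j :: .birth j :: w)

namespace TL

variable {i n : ℕ} {w : List Piece}

lemma wf (h : TL i n w) : WF n w n := by
  induction h with
  | nil => rfl
  | cons j w h1 h2 hw ih =>
    refine ⟨h2, by omega, ?_⟩
    have e : n - 2 + 2 = n := by omega
    rw [e]
    exact ih

lemma rr_eq (h : TL i n w) : rr n w = 0 := by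
  induction h with
  | nil => rfl
  | cons j w h1 h2 hw ih =>
    have e : n - 2 + 2 = n := by omega
    simp only [rr]
    rw [e]
    exact ih

lemma holes_eq (h : TL i n w) : holes w = 0 := by
  induction h with
  | nil => rfl
  | cons j w h1 h2 hw ih => exact ih

lemma crossings_eq (h : TL i n w) : crossings w = 0 := by
  induction h with
  | nil => rfl
  | cons j w h1 h2 hw ih => exact ih

lemma app {w' : List Piece} (h : TL i n w) (h' : TL i n w') : TL i n (w ++ w') := by
  induction h with
  | nil => exact h'
  | cons j w h1 h2 hw ih => exact TL.cons j _ h1 h2 ih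

lemma mono {i' : ℕ} (hi : i' ≤ i) (h : TL i n w) : TL i' n w := by
  induction h with
  | nil => exact TL.nil
  | cons j w h1 h2 hw ih => exact TL.cons j _ (hi.trans h1) h2 ih

lemma one {j : ℕ} (h1 : i ≤ j) (h2 : j + 2 ≤ n) : TL i n [.death j, .birth j] :=
  TL.cons j _ h1 h2 TL.nil

lemma snoc (h : TL i n w) (hw : w ≠ []) :
    ∃ w' j, w = w' ++ [.death j, .birth j] ∧ TL i n w' ∧ i ≤ j ∧ j + 2 ≤ n := by
  induction h with
  | nil => exact absurd rfl hw
  | cons j w h1 h2 hw' ih =>
    by_cases h0 : w = []
    · subst h0
      exact ⟨[], j, rfl, TL.nil, h1, h2⟩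
    · obtain ⟨w', j', rfl, h3, h4, h5⟩ := ih h0
      exact ⟨.death j :: .birth j :: w', j', rfl, TL.cons j _ h1 h2 h3, h4, h5⟩

end TL

lemma right (M : Submodule K Q) (b : Bool) (k : ℕ) : ∀ (i n : ℕ) (u rest : List Piece),
    i + 1 + k ≤ n → WF 0 u n → WF n rest 0 →
    (∀ w, TL i n w → w ≠ [] → q (u ++ (w ++ rest)) ∈ M) →
    q (u ++ (goRight b i k ++ rest)) - (Ab b) ^ k • q (u ++ rest) ∈ M := by
  induction k with
  | zero =>
    intro i n u rest _ _ _ _
    simp [goRight]
  | succ k ih =>
    intro i n u rest hn hu hr hM
    have hX : WF n (goRight b (i + 1) k ++ rest) 0 := by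
      refine (WF_append _ _ _ _).2 ⟨n, ?_, hr⟩
      clear ih hM hu hr
      induction k generalizing i with
      | zero => rfl
      | succ k ih => exact ⟨by omega, ih (i + 1) (by omega)⟩
    have e1 : q (u ++ (goRight b i (k + 1) ++ rest)) =
        Ab b • q (u ++ (goRight b (i + 1) k ++ rest)) +
        (Ab b)⁻¹ • q (u ++ .death i :: .birth i :: (goRight b (i + 1) k ++ rest)) :=
      q_kauffman ((WF_append _ _ _ _).2 ⟨n, hu, by omega, hX⟩)
    have h1 := ih (i + 1) n u rest (by omega) hu hr
      (fun w hw hw0 => hM w (hw.mono (by omega)) hw0)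
    have hu2 : WF 0 (u ++ [.death i, .birth i]) n :=
      (WF_append _ _ _ _).2 ⟨n, hu, (TL.one (i := i) le_rfl (by omega)).wf⟩
    have h2 := ih (i + 1) n (u ++ [.death i, .birth i]) rest (by omega) hu2 hr
      (fun w hw hw0 => by
        have := hM (.death i :: .birth i :: w)
          (TL.cons i w le_rfl (by omega) (hw.mono (by omega))) (by simp)
        simpa using this)
    have h3 : q (u ++ [.death i, .birth i] ++ rest) ∈ M := by
      have := hM [.death i, .birth i] (TL.one le_rfl (by omega)) (by simp)
      simpa using this
    have h4 : q (u ++ .death i :: .birth i :: (goRight b (i + 1) k ++ rest)) ∈ M := by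
      have h5 := M.add_mem h2 (M.smul_mem ((Ab b) ^ k) h3)
      rw [sub_add_cancel] at h5
      simpa using h5
    rw [e1, pow_succ']
    have h6 := M.add_mem (M.smul_mem (Ab b) h1) (M.smul_mem (Ab b)⁻¹ h4)
    rw [smul_sub, smul_smul] at h6
    convert h6 using 1
    abel

lemma left (M : Submodule K Q) (b : Bool) (k : ℕ) : ∀ (i n : ℕ) (u rest : List Piece),
    i + 1 + k ≤ n → WF 0 u n → WF n rest 0 →
    (∀ w, TL i n w → w ≠ [] → q (u ++ (w ++ rest)) ∈ M) →
    q (u ++ (goLeft b i k ++ rest)) - (Ab b) ^ k • q (u ++ rest) ∈ M := by
  induction k with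
  | zero =>
    intro i n u rest _ _ _ _
    simp [goLeft]
  | succ k ih =>
    intro i n u rest hn hu hr hM
    have hX : WF n (goLeft b (i + 1) k) n := by
      clear ih hM hu hr
      induction k generalizing i with
      | zero => rfl
      | succ k ih => exact (WF_append _ _ _ _).2 ⟨n, ih (i + 1) (by omega), by omega, rfl⟩
    have e1 : q ((u ++ goLeft b (i + 1) k) ++ .cr i b :: rest) =
        Ab b • q ((u ++ goLeft b (i + 1) k) ++ rest) +
        (Ab b)⁻¹ • q ((u ++ goLeft b (i + 1) k) ++ .death i :: .birth i :: rest) :=
      q_kauffman ((WF_append _ _ _ _).2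
        ⟨n, (WF_append _ _ _ _).2 ⟨n, hu, hX⟩, by omega, hr⟩)
    have e0 : u ++ (goLeft b i (k + 1) ++ rest) = (u ++ goLeft b (i + 1) k) ++ .cr i b :: rest := by
      simp [goLeft]
    rw [e0, e1]
    have hr2 : WF n (.death i :: .birth i :: rest) 0 :=
      (WF_append [.death i, .birth i] rest _ _).2 ⟨n, (TL.one (i := i) le_rfl (by omega)).wf, hr⟩
    have h1 := ih (i + 1) n u rest (by omega) hu hr
      (fun w hw hw0 => hM w (hw.mono (by omega)) hw0)
    have h2 := ih (i + 1) n u (.death i :: .birth i :: rest) (by omega) hu hr2
      (fun w hw hw0 => by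
        have := hM (w ++ [.death i, .birth i])
          ((hw.mono (by omega)).app (TL.one le_rfl (by omega))) (by simp)
        simpa using this)
    have h3 : q (u ++ .death i :: .birth i :: rest) ∈ M := by
      have := hM [.death i, .birth i] (TL.one le_rfl (by omega)) (by simp)
      simpa using this
    have h4 : q ((u ++ goLeft b (i + 1) k) ++ .death i :: .birth i :: rest) ∈ M := by
      have h5 := M.add_mem h2 (M.smul_mem ((Ab b) ^ k) h3)
      rw [sub_add_cancel] at h5
      simpa using h5
    rw [← List.append_assoc] at h1
    have h6 := M.add_mem (M.smul_mem (Ab b) h1) (M.smul_mem (Ab b)⁻¹ h4)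
    rw [smul_sub, smul_smul, ← pow_succ'] at h6
    convert h6 using 1
    abel

lemma X_pow_ne {n : ℕ} (hn : n ≠ 0) : (1 : K) - RatFunc.X ^ n ≠ 0 := by
  intro h
  have h1 : (RatFunc.X : K) ^ n = 1 := (sub_eq_zero.1 h).symm
  rw [← RatFunc.algebraMap_X, ← map_pow, ← map_one (algebraMap (Polynomial ℚ) K)] at h1
  have h2 := RatFunc.algebraMap_injective ℚ h1
  have h3 := congrArg Polynomial.natDegree h2
  rw [Polynomial.natDegree_X_pow, Polynomial.natDegree_one] at h3
  exact hn h3

lemma exists_hole {n m : ℕ} {D : List Piece} (h : WF n D m) (hr : rr n D ≠ 0) :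
    ∃ u i v l, D = u ++ .hole i :: v ∧ WF n u l ∧ WF l v m ∧ i < l := by
  induction D generalizing n with
  | nil => exact absurd rfl hr
  | cons p D ih =>
    cases p with
    | birth i =>
      obtain ⟨u, j, v, l, rfl, h1, h2, h3⟩ := ih h.2 hr
      exact ⟨.birth i :: u, j, v, l, rfl, ⟨h.1, h1⟩, h2, h3⟩
    | death i =>
      obtain ⟨u, j, v, l, rfl, h1, h2, h3⟩ := ih h.2 hr
      exact ⟨.death i :: u, j, v, l, rfl, ⟨h.1, h1⟩, h2, h3⟩
    | cr i b =>
      obtain ⟨u, j, v, l, rfl, h1, h2, h3⟩ := ih h.2 hr
      exact ⟨.cr i b :: u, j, v, l, rfl, ⟨h.1, h1⟩, h2, h3⟩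
    | hole i =>
      by_cases hi : i < n
      · exact ⟨[], i, D, n, rfl, rfl, h.2, hi⟩
      · simp only [rr] at hr
        obtain ⟨u, j, v, l, rfl, h1, h2, h3⟩ := ih h.2 (by omega)
        exact ⟨.hole i :: u, j, v, l, rfl, ⟨h.1, h1⟩, h2, h3⟩

lemma step2 (r : ℕ) : ∀ D : List Piece, rr 0 D = r → WF 0 D 0 → crossings D = 0 →
    q D ∈ N (holes D) := by
  induction r using Nat.strong_induction_on with
  | _ r ih =>
    intro D hr h hc
    by_cases hr0 : r = 0
    · exact base D.length D le_rfl h hc (hr.trans hr0)
    obtain ⟨u, i, v, l, rfl, hu, hv, hil⟩ := exists_hole h (by omega)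
    obtain ⟨k, rfl⟩ : ∃ k, l = i + 1 + k := ⟨l - i - 1, by omega⟩
    rw [rr_app hu] at hr
    simp only [rr] at hr
    rw [crossings_app] at hc
    simp only [crossings] at hc
    have hh : holes (u ++ .hole i :: v) = holes u + (holes v + 1) := by
      rw [holes_app]; rfl
    -- the smaller diagrams
    have key : ∀ w1 w2, TL i (i + 1 + k) w1 → TL i (i + 1 + k) w2 → (w1 ≠ [] ∨ w2 ≠ []) →
        q (u ++ (w1 ++ (.hole i :: (w2 ++ v)))) ∈ N (holes (u ++ .hole i :: v)) := by
      intro w1 w2 h1 h2 h12
      by_cases h2e : w2 = []
      · subst h2e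
        have h1e : w1 ≠ [] := by
          rcases h12 with h | h
          · exact h
          · exact absurd rfl h
        obtain ⟨w', j, rfl, h3, h4, h5⟩ := h1.snoc h1e
        have mv : RMove (i + 1 + k - 2) [.hole i, .birth j] [.birth j, .hole i] := by
          have := RMove.far (i + 1 + k - 2) (.hole i) (.birth j) (by simp [Piece.isHole])
            (by simpa [Piece.pos, Piece.src] using h4)
            (by simp only [Piece.pos, Piece.src]; omega)
          simpa [Piece.put, Piece.pos, Piece.src, Piece.tgt] using this
        have hu' : WF 0 (u ++ w' ++ [.death j]) (i + 1 + k - 2) :=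
          (WF_append _ _ _ _).2 ⟨i + 1 + k, (WF_append _ _ _ _).2 ⟨i + 1 + k, hu, h3.wf⟩, h5, rfl⟩
        have e := q_move (v := v) mv hu' (m := i + 1 + k)
          ⟨by omega, by omega, by simp only [WF]; omega⟩
          ⟨by omega, by omega, by simp only [WF]; omega⟩ hv
        have e1 : u ++ (w' ++ [.death j, .birth j] ++ .hole i :: ([] ++ v)) =
            u ++ w' ++ [.death j] ++ ([.birth j, .hole i] ++ v) := by simp
        rw [e1, ← e]
        have e2 : u ++ w' ++ [.death j] ++ ([.hole i, .birth j] ++ v) =
            u ++ (w' ++ .death j :: .hole i :: .birth j :: v) := by simp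
        rw [e2]
        have e3 : holes (u ++ .hole i :: v) =
            holes (u ++ (w' ++ .death j :: .hole i :: .birth j :: v)) := by
          rw [holes_app, holes_app, holes_app, h3.holes_eq]; simp [holes]
        rw [e3]
        have e4 : i + 1 + k - 2 + 2 = i + 1 + k := by omega
        refine ih _ ?_ _ rfl ?_ ?_
        · rw [rr_app hu, rr_app h3.wf, h3.rr_eq]
          simp only [rr]
          rw [e4]
          omega
        · refine (WF_append _ _ _ _).2 ⟨_, hu, (WF_append _ _ _ _).2 ⟨_, h3.wf, h5, by omega,
            by omega, ?_⟩⟩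
          rw [e4]
          exact hv
        · rw [crossings_app, crossings_app, h3.crossings_eq]
          simp only [crossings]
          omega
      · cases h2 with
        | nil => exact absurd rfl h2e
        | cons j w3 h4 h5 h3 =>
          have mv : RMove (i + 1 + k) [.hole i, .death j] [.death j, .hole i] := by
            have := RMove.far (i + 1 + k) (.hole i) (.death j) (by simp [Piece.isHole])
              (by simpa [Piece.pos, Piece.src] using h4)
              (by simpa [Piece.pos, Piece.src] using h5)
            simpa [Piece.put, Piece.pos, Piece.src, Piece.tgt] using this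
          have hu' : WF 0 (u ++ w1) (i + 1 + k) :=
            (WF_append _ _ _ _).2 ⟨i + 1 + k, hu, h1.wf⟩
          have e4 : i + 1 + k - 2 + 2 = i + 1 + k := by omega
          have hv' : WF (i + 1 + k - 2) (.birth j :: (w3 ++ v)) 0 := by
            refine ⟨by omega, ?_⟩
            rw [e4]
            exact (WF_append _ _ _ _).2 ⟨_, h3.wf, hv⟩
          have e := q_move (v := .birth j :: (w3 ++ v)) mv hu' (m := i + 1 + k - 2)
            ⟨by omega, by omega, rfl⟩ ⟨by omega, by omega, rfl⟩ hv'
          have e1 : u ++ (w1 ++ .hole i :: (.death j :: .birth j :: w3 ++ v)) =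
              u ++ w1 ++ ([.hole i, .death j] ++ .birth j :: (w3 ++ v)) := by simp
          rw [e1, e]
          have e2 : u ++ w1 ++ ([.death j, .hole i] ++ .birth j :: (w3 ++ v)) =
              u ++ (w1 ++ .death j :: .hole i :: .birth j :: (w3 ++ v)) := by simp
          rw [e2]
          have e3 : holes (u ++ .hole i :: v) =
              holes (u ++ (w1 ++ .death j :: .hole i :: .birth j :: (w3 ++ v))) := by
            rw [holes_app, holes_app, holes_app, h1.holes_eq]
            simp [holes, holes_app, h3.holes_eq]
          rw [e3]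
          refine ih _ ?_ _ rfl ?_ ?_
          · rw [rr_app hu, rr_app h1.wf, h1.rr_eq]
            simp only [rr]
            rw [e4, rr_app h3.wf, h3.rr_eq]
            omega
          · refine (WF_append _ _ _ _).2 ⟨_, hu, (WF_append _ _ _ _).2 ⟨_, h1.wf, h5, by omega,
              ?_⟩⟩
            exact hv'
          · rw [crossings_app, crossings_app, h1.crossings_eq]
            simp only [crossings]
            rw [crossings_app, h3.crossings_eq]
            omega
    set M := N (holes (u ++ .hole i :: v)) with hM
    -- slide and expand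
    have hs := q_slide (b := true) hu hv
    have hl : ∀ w, TL i (i + 1 + k) w →
        q (u ++ (w ++ (.hole i :: (goLeft true i k ++ v)))) -
          (Ab true) ^ k • q (u ++ (w ++ .hole i :: v)) ∈ M := by
      intro w hw
      have h1 := left M true k i (i + 1 + k) (u ++ w ++ [.hole i]) v le_rfl
        ((WF_append _ _ _ _).2 ⟨i + 1 + k, (WF_append _ _ _ _).2 ⟨i + 1 + k, hu, hw.wf⟩,
          (show WF (i + 1 + k) [.hole i] (i + 1 + k) from ⟨by omega, rfl⟩)⟩) hv
        (fun w2 hw2 hw20 => by
          have := key w w2 hw hw2 (Or.inr hw20)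
          simpa using this)
      simpa using h1
    have hgl : WF (i + 1 + k) (.hole i :: (goLeft true i k ++ v)) 0 := by
      refine ⟨by omega, (WF_append _ _ _ _).2 ⟨_, ?_, hv⟩⟩
      have : ∀ (k' i' n : ℕ), i' + 1 + k' ≤ n → WF n (goLeft true i' k') n := by
        intro k'
        induction k' with
        | zero => intro i' n _; rfl
        | succ k' ihk =>
          intro i' n hn
          exact (WF_append _ _ _ _).2 ⟨n, ihk (i' + 1) n (by omega), by omega, rfl⟩
      exact this k i _ le_rfl
    have h1 := right M true k i (i + 1 + k) u (.hole i :: (goLeft true i k ++ v)) le_rfl hu hgl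
      (fun w hw hw0 => by
        have h2 := key w [] hw TL.nil (Or.inl hw0)
        have h3 := M.add_mem (hl w hw) (M.smul_mem ((Ab true) ^ k) h2)
        simpa using h3)
    have h2 := hl [] TL.nil
    simp only [List.nil_append] at h2
    -- the equation
    set y := q (u ++ (goRight true i k ++ (.hole i :: (goLeft true i k ++ v)))) with hy
    set z := q (u ++ .hole i :: (goLeft true i k ++ v)) with hz
    have h3 : y - (Ab true) ^ (2 * k) • q (u ++ .hole i :: v) ∈ M := by
      have h4 := M.add_mem h1 (M.smul_mem ((Ab true) ^ k) h2)
      have e : y - (Ab true) ^ (2 * k) • q (u ++ .hole i :: v) =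
          y - (Ab true) ^ k • z + (Ab true) ^ k • (z - (Ab true) ^ k • q (u ++ .hole i :: v)) := by
        rw [smul_sub, smul_smul, ← pow_add, two_mul]
        abel
      rw [e]
      exact h4
    have h5 : ((1 : K) - RatFunc.X ^ (6 + 2 * k)) • q (u ++ .hole i :: v) ∈ M := by
      have h6 := M.smul_mem ((Ab true) ^ 6) h3
      rw [smul_sub, ← hs, smul_smul, ← pow_add] at h6
      rw [sub_smul, one_smul]
      exact h6
    have h7 := M.smul_mem ((1 : K) - RatFunc.X ^ (6 + 2 * k))⁻¹ h5
    rw [smul_smul, inv_mul_cancel₀ (X_pow_ne (by omega)), one_smul] at h7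
    exact h7

/-! ### step 1: the crossings -/

lemma exists_cr {D : List Piece} (h : crossings D ≠ 0) :
    ∃ u i b v, D = u ++ .cr i b :: v := by
  induction D with
  | nil => exact absurd rfl h
  | cons p D ih =>
    cases p with
    | birth i =>
      obtain ⟨u, j, b, v, rfl⟩ := ih h
      exact ⟨.birth i :: u, j, b, v, rfl⟩
    | death i =>
      obtain ⟨u, j, b, v, rfl⟩ := ih h
      exact ⟨.death i :: u, j, b, v, rfl⟩
    | hole i =>
      obtain ⟨u, j, b, v, rfl⟩ := ih h
      exact ⟨.hole i :: u, j, b, v, rfl⟩
    | cr i b => exact ⟨[], i, b, D, rfl⟩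

lemma step1 (c : ℕ) : ∀ D : List Piece, crossings D = c → WF 0 D 0 → q D ∈ N (holes D) := by
  induction c with
  | zero => exact fun D hc h => step2 _ D rfl h hc
  | succ c ih =>
    intro D hc h
    obtain ⟨u, i, b, v, rfl⟩ := exists_cr (by omega : crossings D ≠ 0)
    rw [q_kauffman h]
    obtain ⟨l, h1, h2, h3⟩ := (WF_append _ _ _ _).1 h
    rw [crossings_app] at hc
    simp only [crossings] at hc
    have e1 : holes (u ++ .cr i b :: v) = holes (u ++ v) := by
      rw [holes_app, holes_app]; rfl
    have e2 : holes (u ++ .cr i b :: v) = holes (u ++ .death i :: .birth i :: v) := by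
      rw [holes_app, holes_app]; rfl
    refine Submodule.add_mem _ (Submodule.smul_mem _ _ ?_) (Submodule.smul_mem _ _ ?_)
    · rw [e1]
      refine ih _ ?_ ((WF_append _ _ _ _).2 ⟨l, h1, h3⟩)
      rw [crossings_app]
      omega
    · rw [e2]
      refine ih _ ?_ ((WF_append _ _ _ _).2 ⟨l, h1, h2, by omega, ?_⟩)
      · rw [crossings_app]
        simp only [crossings]
        omega
      · have e4 : l - 2 + 2 = l := by omega
        rw [e4]
        exact h3

/-- KB-HP -/
theorem hp : S_HP := fun D hD => isBracket_of (step1 _ D rfl hD)

end Pool.Agent.W398.KB
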