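import Pool.Agent.W617.KB.Stmts
import Pool.Agent.H560R3.TG.Lab

/-!
Project KB (helper617), tasks KB-EX1, KB-EX2, KB-EX3 (helper398): the labellings of the example
`D0`.
-/

set_option autoImplicit false

namespace Pool.Agent.W398.KB

open Pool.Agent.H560R3.TG Pool.Agent.W617.KB

variable {S G : Type}

lemma split_take {α : Type} {L R F : List α} {i : ℕ} (h : L ++ R = F) (hL : L.length = i) :
    L = F.take i ∧ R = F.drop i := by
  subst h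
  subst hL
  simp

lemma step_birth {a : G} {F F' : List (S × G)} {s : Slice S G} {E : List (Slice S G)} {i : ℕ}
    (h : Path a F (s :: E) F') (hs : s.plain = .birth i) :
    ∃ u y, s = ⟨F.take i, .birth u y, F.drop i⟩ ∧
      Path a (F.take i ++ (u, y) :: (u, cur a (F.take i)) :: F.drop i) E F' := by
  obtain ⟨L, R, u, y, rfl, hL⟩ := plain_birth s i hs
  obtain ⟨h1, h2⟩ := h
  simp only [Slice.src, Loc.src, List.append_nil] at h1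
  obtain ⟨rfl, rfl⟩ := split_take h1 hL
  refine ⟨u, y, rfl, ?_⟩
  simpa [Slice.tgt, Loc.tgt] using h2

lemma step_hole {a : G} {F F' : List (S × G)} {s : Slice S G} {E : List (Slice S G)} {i : ℕ}
    (h : Path a F (s :: E) F') (hs : s.plain = .hole i) :
    s = ⟨F.take i, .hole, F.drop i⟩ ∧ Path a F E F' := by
  obtain ⟨L, R, rfl, hL⟩ := plain_hole s i hs
  obtain ⟨h1, h2⟩ := h
  simp only [Slice.src, Loc.src, List.append_nil] at h1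
  obtain ⟨rfl, rfl⟩ := split_take h1 hL
  refine ⟨rfl, ?_⟩
  simpa [Slice.tgt, Loc.tgt] using h2

lemma step_death {a : G} {F F' : List (S × G)} {s : Slice S G} {E : List (Slice S G)} {i : ℕ}
    (h : Path a F (s :: E) F') (hs : s.plain = .death i) :
    ∃ u y R, F.drop i = (u, y) :: (u, cur a (F.take i)) :: R ∧
      s = ⟨F.take i, .death u y, R⟩ ∧ Path a (F.take i ++ R) E F' := by
  obtain ⟨L, R, u, y, rfl, hL⟩ := plain_death s i hs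
  obtain ⟨h1, h2⟩ := h
  simp only [Slice.src, Loc.src, List.append_assoc] at h1
  obtain ⟨rfl, h3⟩ := split_take h1 hL
  refine ⟨u, y, R, h3.symm, rfl, ?_⟩
  simpa [Slice.tgt, Loc.tgt] using h2

lemma step_cr {a : G} {F F' : List (S × G)} {s : Slice S G} {E : List (Slice S G)} {i : ℕ}
    {b : Bool} (h : Path a F (s :: E) F') (hs : s.plain = .cr i b) :
    ∃ s₁ y s₂ z R t₁ y' t₂, F.drop i = (s₁, y) :: (s₂, z) :: R ∧
      s = ⟨F.take i, .cr b s₁ y s₂ t₁ y' t₂ z, R⟩ ∧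
      Path a (F.take i ++ (t₁, y') :: (t₂, z) :: R) E F' := by
  obtain ⟨L, R, s₁, y, s₂, t₁, y', t₂, z, rfl, hL⟩ := plain_cr s i b hs
  obtain ⟨h1, h2⟩ := h
  simp only [Slice.src, Loc.src, List.append_assoc] at h1
  obtain ⟨rfl, h3⟩ := split_take h1 hL
  refine ⟨s₁, y, s₂, z, R, t₁, y', t₂, h3.symm, rfl, ?_⟩
  simpa [Slice.tgt, Loc.tgt] using h2

/-- the labellings of `D0` -/
def sol (a : G) (α₁ α₂ β₁ β₂ t u : S) (g₁ g₂ h₁ h₂ : G) : List (Slice S G) :=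
  [⟨[], .birth α₁ g₁, []⟩,
   ⟨[(α₁, g₁)], .birth α₂ g₂, [(α₁, a)]⟩,
   ⟨[(α₁, g₁), (α₂, g₂)], .hole, [(α₂, g₁), (α₁, a)]⟩,
   ⟨[(α₁, g₁), (α₂, g₂), (α₂, g₁), (α₁, a)], .birth β₁ h₁, []⟩,
   ⟨[(α₁, g₁), (α₂, g₂), (α₂, g₁), (α₁, a), (β₁, h₁)], .birth β₂ h₂, [(β₁, a)]⟩,
   ⟨[(α₁, g₁), (α₂, g₂), (α₂, g₁), (α₁, a), (β₁, h₁), (β₂, h₂)], .hole, [(β₂, h₁), (β₁, a)]⟩,
   ⟨[], .cr true α₁ g₁ α₂ t g₁ α₂ g₂,
     [(α₂, g₁), (α₁, a), (β₁, h₁), (β₂, h₂), (β₂, h₁), (β₁, a)]⟩,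
   ⟨[(t, g₁), (α₂, g₂), (α₂, g₁)], .cr false α₁ a β₁ t a u h₁, [(β₂, h₂), (β₂, h₁), (β₁, a)]⟩,
   ⟨[(t, g₁), (α₂, g₂), (α₂, g₁), (t, a), (u, h₁), (β₂, h₂)], .cr true β₂ h₁ β₁ β₂ h₁ u a, []⟩,
   ⟨[(t, g₁), (α₂, g₂), (α₂, g₁), (t, a), (u, h₁)], .death β₂ h₂, [(u, a)]⟩,
   ⟨[(t, g₁), (α₂, g₂), (α₂, g₁), (t, a)], .death u h₁, []⟩,
   ⟨[(t, g₁)], .death α₂ g₂, [(t, a)]⟩,
   ⟨[], .death t g₁, []⟩]

lemma labelling_sol (a : G) (α₁ α₂ β₁ β₂ t u : S) (g₁ g₂ h₁ h₂ : G) :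
    Labelling a (sol a α₁ α₂ β₁ β₂ t u g₁ g₂ h₁ h₂) D0 := by
  refine ⟨?_, rfl⟩
  simp [sol, Pool.Agent.H560R3.TG.Path, Slice.src, Slice.tgt, Loc.src, Loc.tgt, cur]

lemma exists_sol {a : G} {E : List (Slice S G)} (h : Labelling a E D0) :
    ∃ α₁ α₂ β₁ β₂ t u g₁ g₂ h₁ h₂, E = sol a α₁ α₂ β₁ β₂ t u g₁ g₂ h₁ h₂ := by
  obtain ⟨hp, hm⟩ := h
  unfold D0 at hm
  obtain ⟨s1, E, rfl, q1, hm⟩ := List.map_eq_cons_iff.1 hm
  obtain ⟨s2, E, rfl, q2, hm⟩ := List.map_eq_cons_iff.1 hm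
  obtain ⟨s3, E, rfl, q3, hm⟩ := List.map_eq_cons_iff.1 hm
  obtain ⟨s4, E, rfl, q4, hm⟩ := List.map_eq_cons_iff.1 hm
  obtain ⟨s5, E, rfl, q5, hm⟩ := List.map_eq_cons_iff.1 hm
  obtain ⟨s6, E, rfl, q6, hm⟩ := List.map_eq_cons_iff.1 hm
  obtain ⟨s7, E, rfl, q7, hm⟩ := List.map_eq_cons_iff.1 hm
  obtain ⟨s8, E, rfl, q8, hm⟩ := List.map_eq_cons_iff.1 hm
  obtain ⟨s9, E, rfl, q9, hm⟩ := List.map_eq_cons_iff.1 hm
  obtain ⟨s10, E, rfl, q10, hm⟩ := List.map_eq_cons_iff.1 hm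
  obtain ⟨s11, E, rfl, q11, hm⟩ := List.map_eq_cons_iff.1 hm
  obtain ⟨s12, E, rfl, q12, hm⟩ := List.map_eq_cons_iff.1 hm
  obtain ⟨s13, E, rfl, q13, hm⟩ := List.map_eq_cons_iff.1 hm
  obtain rfl := List.map_eq_nil_iff.1 hm
  obtain ⟨α₁, g₁, e1, p1⟩ := step_birth hp q1
  simp only [List.take, List.drop, List.nil_append, cur, List.take_nil, List.drop_nil] at p1 e1
  obtain ⟨α₂, g₂, e2, p2⟩ := step_birth p1 q2
  simp only [List.take, List.drop, List.cons_append, List.nil_append, cur] at p2 e2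
  obtain ⟨e3, p3⟩ := step_hole p2 q3
  simp only [List.take, List.drop] at e3
  obtain ⟨β₁, h₁, e4, p4⟩ := step_birth p3 q4
  simp only [List.take, List.drop, List.cons_append, List.nil_append, cur] at p4 e4
  obtain ⟨β₂, h₂, e5, p5⟩ := step_birth p4 q5
  simp only [List.take, List.drop, List.cons_append, List.nil_append, cur] at p5 e5
  obtain ⟨e6, p6⟩ := step_hole p5 q6
  simp only [List.take, List.drop] at e6
  obtain ⟨x1, x2, x3, x4, R, t, y1, t2, e, e7, p7⟩ := step_cr p6 q7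
  simp only [List.take, List.drop, List.cons_append, List.nil_append, List.cons.injEq,
    Prod.mk.injEq] at p7 e e7
  obtain ⟨⟨rfl, rfl⟩, ⟨rfl, rfl⟩, rfl⟩ := e
  obtain ⟨x1, x2, x3, x4, R, t3, y2, u, e, e8, p8⟩ := step_cr p7 q8
  simp only [List.take, List.drop, List.cons_append, List.nil_append, List.cons.injEq,
    Prod.mk.injEq] at p8 e e8
  obtain ⟨⟨rfl, rfl⟩, ⟨rfl, rfl⟩, rfl⟩ := e
  obtain ⟨x1, x2, x3, x4, R, t4, y3, u2, e, e9, p9⟩ := step_cr p8 q9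
  simp only [List.take, List.drop, List.cons_append, List.nil_append, List.cons.injEq,
    Prod.mk.injEq] at p9 e e9
  obtain ⟨⟨rfl, rfl⟩, ⟨rfl, rfl⟩, rfl⟩ := e
  obtain ⟨x1, x2, R, e, e10, p10⟩ := step_death p9 q10
  simp only [List.take, List.drop, List.cons_append, List.nil_append, List.cons.injEq,
    Prod.mk.injEq, cur] at p10 e e10
  obtain ⟨⟨rfl, rfl⟩, ⟨rfl, rfl⟩, rfl⟩ := e
  obtain ⟨x1, x2, R, e, e11, p11⟩ := step_death p10 q11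
  simp only [List.take, List.drop, List.cons_append, List.nil_append, List.cons.injEq,
    Prod.mk.injEq, cur, List.append_nil] at p11 e e11
  obtain ⟨⟨rfl, rfl⟩, ⟨rfl, rfl⟩, rfl⟩ := e
  obtain ⟨x1, x2, R, e, e12, p12⟩ := step_death p11 q12
  simp only [List.take, List.drop, List.cons_append, List.nil_append, List.cons.injEq,
    Prod.mk.injEq, cur, List.append_nil] at p12 e e12
  obtain ⟨⟨rfl, rfl⟩, ⟨rfl, rfl⟩, rfl⟩ := e
  obtain ⟨x1, x2, R, e, e13, p13⟩ := step_death p12 q13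
  simp only [List.take, List.drop, List.cons_append, List.nil_append, List.cons.injEq,
    Prod.mk.injEq, cur, List.append_nil] at p13 e e13
  obtain ⟨⟨rfl, rfl⟩, ⟨rfl, -⟩, rfl⟩ := e
  rw [e1, e2, e3, e4, e5, e6, e7, e8, e9, e10, e11, e12, e13]
  exact ⟨_, _, _, _, _, _, _, _, _, _, rfl⟩

end Pool.Agent.W398.KB
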